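import Mathlib
import Pool.Agent.Helper99.EmuDefs
import Pool.Agent.Helper99.EmuProof

/-!
The `ω₁`-ballean of `Sym(ω)` is emu-bounded if and only if the continuum hypothesis fails.
-/

namespace Pool.Agent.Results.MP_c8ce56_lc.EmuBoundedIffNotCH

open Cardinal Pool.Agent.Helper99.Emu

/-- The `ω₁`-ballean of the group of all permutations of `ℕ` is emu-bounded iff `ℵ₁ < 𝔠`. -/
theorem result : EmuBounded ℵ₁ (Equiv.Perm ℕ) ↔ (ℵ₁ : Cardinal.{0}) < 𝔠 :=
  Pool.Agent.Helper99.Emu.main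

end Pool.Agent.Results.MP_c8ce56_lc.EmuBoundedIffNotCH
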